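import Pool.Agent.helper81.WS.Spec

/-! Row CSW of WS (Cauchy in the cells, weighted). -/

set_option autoImplicit false

open Finset Module Pointwise

namespace Pool.Agent.WS

open Pool.Agent.helper85.PG (IsSys rr)

theorem CSW_norm {p : ℕ} [Fact p.Prime] (χ : MulChar (ZMod p) ℂ) (x : ZMod p) : ‖χ x‖ ≤ 1 :=
  DirichletCharacter.norm_le_one χ x

theorem CSW_diag {p : ℕ} [Fact p.Prime] (χ : MulChar (ZMod p) ℂ) (w : ZMod p → ℝ) (hw : ∀ c, 0 ≤ w c) (b : ZMod p) :
    ‖Gw χ w b b‖ ≤ ∑ c : ZMod p, w c := by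
  unfold Gw
  refine (norm_sum_le _ _).trans (Finset.sum_le_sum fun c _ => ?_)
  rw [norm_mul, norm_mul, RCLike.norm_conj, Complex.norm_real, Real.norm_of_nonneg (hw c)]
  have h := mul_le_one₀ (CSW_norm χ (c + b)) (norm_nonneg _) (CSW_norm χ (c + b))
  calc w c * (‖χ (c + b)‖ * ‖χ (c + b)‖) ≤ w c * 1 := mul_le_mul_of_nonneg_left h (hw c)
    _ = w c := mul_one _

theorem CSW_cell {p : ℕ} [Fact p.Prime] (χ : MulChar (ZMod p) ℂ) (w : ZMod p → ℝ) (hw : ∀ c, 0 ≤ w c)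
    (C : Finset (ZMod p)) (β : ZMod p → ℂ) (hβ : ∀ b, ‖β b‖ ≤ 1) :
    ∑ c : ZMod p, w c * ‖∑ b ∈ C, β b * χ (c + b)‖ ^ 2 ≤
      (∑ c : ZMod p, w c) * C.card + ∑ b ∈ C, ∑ b' ∈ C.erase b, ‖Gw χ w b b'‖ := by
  have h1 : ((∑ c : ZMod p, w c * ‖∑ b ∈ C, β b * χ (c + b)‖ ^ 2 : ℝ) : ℂ) =
      ∑ b ∈ C, ∑ b' ∈ C, β b * (starRingEnd ℂ) (β b') * Gw χ w b b' := by
    rw [Complex.ofReal_sum]
    have h2 : ∀ c ∈ (univ : Finset (ZMod p)), ((w c * ‖∑ b ∈ C, β b * χ (c + b)‖ ^ 2 : ℝ) : ℂ) =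
        ∑ b ∈ C, ∑ b' ∈ C, β b * (starRingEnd ℂ) (β b') *
          ((w c : ℂ) * (χ (c + b) * (starRingEnd ℂ) (χ (c + b')))) := by
      intro c _
      rw [Complex.ofReal_mul, Complex.ofReal_pow, ← Complex.mul_conj', map_sum, Finset.sum_mul_sum,
        Finset.mul_sum]
      apply Finset.sum_congr rfl
      intro b _
      rw [Finset.mul_sum]
      apply Finset.sum_congr rfl
      intro b' _
      rw [map_mul]
      ring
    rw [Finset.sum_congr rfl h2, Finset.sum_comm]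
    apply Finset.sum_congr rfl
    intro b _
    rw [Finset.sum_comm]
    apply Finset.sum_congr rfl
    intro b' _
    unfold Gw
    rw [Finset.mul_sum]
  have h3 : ∑ c : ZMod p, w c * ‖∑ b ∈ C, β b * χ (c + b)‖ ^ 2 ≤
      ∑ b ∈ C, ∑ b' ∈ C, ‖Gw χ w b b'‖ := by
    have h4 : ∑ c : ZMod p, w c * ‖∑ b ∈ C, β b * χ (c + b)‖ ^ 2 =
        ‖((∑ c : ZMod p, w c * ‖∑ b ∈ C, β b * χ (c + b)‖ ^ 2 : ℝ) : ℂ)‖ := by
      rw [Complex.norm_real, Real.norm_of_nonneg]
      exact Finset.sum_nonneg fun c _ => mul_nonneg (hw c) (sq_nonneg _)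
    rw [h4, h1]
    refine (norm_sum_le _ _).trans (Finset.sum_le_sum fun b _ => ?_)
    refine (norm_sum_le _ _).trans (Finset.sum_le_sum fun b' _ => ?_)
    rw [norm_mul, norm_mul, RCLike.norm_conj]
    have h5 : ‖β b‖ * ‖β b'‖ ≤ 1 := mul_le_one₀ (hβ b) (norm_nonneg _) (hβ b')
    calc ‖β b‖ * ‖β b'‖ * ‖Gw χ w b b'‖ ≤ 1 * ‖Gw χ w b b'‖ :=
          mul_le_mul_of_nonneg_right h5 (norm_nonneg _)
      _ = ‖Gw χ w b b'‖ := one_mul _
  refine h3.trans ?_
  have h6 : ∑ b ∈ C, ∑ b' ∈ C, ‖Gw χ w b b'‖ =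
      ∑ b ∈ C, ‖Gw χ w b b‖ + ∑ b ∈ C, ∑ b' ∈ C.erase b, ‖Gw χ w b b'‖ := by
    rw [← Finset.sum_add_distrib]
    apply Finset.sum_congr rfl
    intro b hb
    rw [Finset.add_sum_erase C (fun b' => ‖Gw χ w b b'‖) hb]
  rw [h6]
  have h7 : ∑ b ∈ C, ‖Gw χ w b b‖ ≤ (∑ c : ZMod p, w c) * C.card := by
    calc ∑ b ∈ C, ‖Gw χ w b b‖ ≤ ∑ _b ∈ C, (∑ c : ZMod p, w c) :=
          Finset.sum_le_sum fun b _ => CSW_diag χ w hw b
      _ = (∑ c : ZMod p, w c) * C.card := by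
          rw [Finset.sum_const, nsmul_eq_mul, mul_comm]
  linarith

theorem CSW_cells {p : ℕ} [Fact p.Prime] {M : Type*} [AddCommMonoid M]
    (B : Finset (ZMod p)) (f : ZMod p → ZMod p) (g : ZMod p → M) :
    ∑ b ∈ B, g b = ∑ j : ZMod p, ∑ b ∈ B.filter (fun b => f b = j), g b := by
  symm
  apply Finset.sum_fiberwise_of_maps_to
  intro b _
  exact Finset.mem_univ _

theorem CSW : CSW_stmt := by
  intro p _ χ w B f β E hw hE hβ hcell
  set C : ZMod p → Finset (ZMod p) := fun j => B.filter (fun b => f b = j) with hC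
  set W : ℝ := ∑ c : ZMod p, w c with hW
  set D : ZMod p → ℝ := fun j => ((C j).card : ℝ) with hD
  set S : ZMod p → ℝ := fun j => ∑ c : ZMod p, w c * ‖∑ b ∈ C j, β b * χ (c + b)‖ with hS
  set G : ZMod p → ℝ := fun j => ∑ b ∈ C j, ∑ b' ∈ (C j).erase b, ‖Gw χ w b b'‖ with hG
  have hW0 : 0 ≤ W := Finset.sum_nonneg fun c _ => hw c
  have hD0 : ∀ j, 0 ≤ D j := fun j => Nat.cast_nonneg _
  have hG0 : ∀ j, 0 ≤ G j := fun j => Finset.sum_nonneg fun _ _ => Finset.sum_nonneg fun _ _ => norm_nonneg _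
  have hDsum : ∑ j : ZMod p, D j = B.card := by
    have h := CSW_cells B f (fun _ => (1 : ℝ))
    simp only [Finset.sum_const, nsmul_eq_mul, mul_one] at h
    exact h.symm
  have h1 : ∑ c : ZMod p, w c * ‖∑ b ∈ B, β b * χ (c + b)‖ ≤ ∑ j : ZMod p, S j := by
    rw [hS]
    simp only
    rw [Finset.sum_comm]
    apply Finset.sum_le_sum
    intro c _
    rw [CSW_cells B f (fun b => β b * χ (c + b)), ← Finset.mul_sum]
    exact mul_le_mul_of_nonneg_left (norm_sum_le _ _) (hw c)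
  have h0 : 0 ≤ ∑ c : ZMod p, w c * ‖∑ b ∈ B, β b * χ (c + b)‖ :=
    Finset.sum_nonneg fun c _ => mul_nonneg (hw c) (norm_nonneg _)
  have h2 : ∀ j, S j ^ 2 ≤ W * (W * D j + G j) := by
    intro j
    have h3 : S j ^ 2 ≤ W * ∑ c : ZMod p, w c * ‖∑ b ∈ C j, β b * χ (c + b)‖ ^ 2 := by
      apply Finset.sum_sq_le_sum_mul_sum_of_sq_le_mul
      · intro c _
        exact hw c
      · intro c _
        exact mul_nonneg (hw c) (sq_nonneg _)
      · intro c _
        apply le_of_eq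
        ring
    exact h3.trans (mul_le_mul_of_nonneg_left (CSW_cell χ w hw (C j) β hβ) hW0)
  have h5 : (∑ j : ZMod p, S j) ^ 2 ≤ (∑ j : ZMod p, D j) *
      ∑ j : ZMod p, W * (W * (D j / E) + (D j)⁻¹ * G j) := by
    apply Finset.sum_sq_le_sum_mul_sum_of_sq_le_mul
    · intro j _
      exact hD0 j
    · intro j _
      have := hD0 j
      have := hG0 j
      positivity
    · intro j _
      rcases Finset.eq_empty_or_nonempty (C j) with h | ⟨b, hb⟩
      · have h6 : S j = 0 := by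
          simp only [hS, h, Finset.sum_empty, norm_zero, mul_zero, Finset.sum_const_zero]
        have h7 : D j = 0 := by
          simp only [hD, h, Finset.card_empty, Nat.cast_zero]
        rw [h6, h7]
        simp
      · have hb' := Finset.mem_filter.1 hb
        have h8 : E ≤ D j := by
          have h81 := hcell b hb'.1
          have h82 : cf B f b = C j := by
            simp only [cf, hC, hb'.2]
          rw [h82] at h81
          exact h81
        have h9 : 0 < D j := lt_of_lt_of_le hE h8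
        have h10 : 1 ≤ D j / E := (one_le_div hE).2 h8
        have h11 : W * (W * D j + G j) ≤
            D j * (W * (W * (D j / E) + (D j)⁻¹ * G j)) := by
          have h12 : D j * (W * (W * (D j / E) + (D j)⁻¹ * G j)) =
              W * (W * (D j * (D j / E)) + ((D j * (D j)⁻¹) * G j)) := by ring
          rw [h12, mul_inv_cancel₀ h9.ne', one_mul]
          apply mul_le_mul_of_nonneg_left _ hW0
          have h13 : D j ≤ D j * (D j / E) := le_mul_of_one_le_right h9.le h10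
          have h14 := mul_le_mul_of_nonneg_left h13 hW0
          linarith
        exact (h2 j).trans h11
  have h6 : ∑ j : ZMod p, W * (W * (D j / E) + (D j)⁻¹ * G j) =
      W * (W * B.card / E + ∑ j : ZMod p, (D j)⁻¹ * G j) := by
    rw [← Finset.mul_sum, Finset.sum_add_distrib, ← Finset.mul_sum,
      ← Finset.sum_div, hDsum, mul_div_assoc]
  have h7 : ∑ b ∈ B, ∑ b' ∈ (cf B f b).erase b, ((cf B f b).card : ℝ)⁻¹ * ‖Gw χ w b b'‖ =
      ∑ j : ZMod p, (D j)⁻¹ * G j := by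
    rw [CSW_cells B f (fun b => ∑ b' ∈ (cf B f b).erase b, ((cf B f b).card : ℝ)⁻¹ * ‖Gw χ w b b'‖)]
    apply Finset.sum_congr rfl
    intro j _
    rw [hG]
    simp only
    rw [Finset.mul_sum]
    apply Finset.sum_congr rfl
    intro b hb
    have h82 : cf B f b = C j := by
      simp only [cf, hC, (Finset.mem_filter.1 hb).2]
    rw [h82, Finset.mul_sum]
  rw [h7]
  rw [h6, hDsum, ← mul_assoc] at h5
  exact (pow_le_pow_left₀ h0 h1 2).trans h5

end Pool.Agent.WS
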